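import Pool.Agent.helper94.PL.Spec

/-!
# Project pl2, module AL2: change of variables
-/

set_option autoImplicit false

open Complex Metric Set Filter Topology MeasureTheory MPS
open Pool.Agent.helper16.Multibrot

noncomputable section

namespace PLY

theorem AL2_det (d : ℂ) :
    ((ContinuousLinearMap.toSpanSingleton ℂ d).restrictScalars ℝ : ℂ →L[ℝ] ℂ).det = ‖d‖ ^ 2 := by
  rw [ContinuousLinearMap.det]
  have h := LinearMap.det_restrictScalars (A := ℂ) (R := ℝ) (S := ℂ)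
    (f := (ContinuousLinearMap.toSpanSingleton ℂ d : ℂ →ₗ[ℂ] ℂ))
  have h2 : ((((ContinuousLinearMap.toSpanSingleton ℂ d).restrictScalars ℝ : ℂ →L[ℝ] ℂ)) :
      ℂ →ₗ[ℝ] ℂ) = (ContinuousLinearMap.toSpanSingleton ℂ d : ℂ →ₗ[ℂ] ℂ).restrictScalars ℝ := rfl
  rw [h2, h]
  simp [Algebra.norm_complex_apply, Complex.normSq_eq_norm_sq]

theorem AL2_open : IsOpen St :=
  isOpen_lt (Complex.continuous_im.abs) continuous_const

theorem AL2_meas (L : ℝ) : MeasurableSet (Rc L) := by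
  refine (measurableSet_le measurable_const Complex.measurable_re).inter ?_
  refine (measurableSet_lt Complex.measurable_re measurable_const).inter ?_
  exact AL2_open.measurableSet

theorem AL2_sub (L : ℝ) : Rc L ⊆ St := fun _ h => h.2.2

theorem AL2_cov (L : ℝ) (G : ℂ → ℂ) (hG : DifferentiableOn ℂ G St) (hinj : InjOn G St)
    (h0 : ∀ ζ ∈ St, G ζ ≠ 0) :
    ∫⁻ ζ in Rc L, ENNReal.ofReal (‖deriv G ζ / G ζ‖ ^ 2)
      = ∫⁻ x in G '' Rc L, ENNReal.ofReal (1 / ‖x‖ ^ 2) := by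
  have h1 : ∀ y ∈ Rc L, HasFDerivWithinAt G
      ((ContinuousLinearMap.toSpanSingleton ℂ (deriv G y)).restrictScalars ℝ : ℂ →L[ℝ] ℂ)
      (Rc L) y := by
    intro y hy
    have hd : DifferentiableAt ℂ G y :=
      hG.differentiableAt (AL2_open.mem_nhds (AL2_sub L hy))
    exact (hd.hasDerivAt.hasFDerivAt.restrictScalars ℝ).hasFDerivWithinAt
  rw [lintegral_image_eq_lintegral_abs_det_fderiv_mul volume (AL2_meas L) h1
    (hinj.mono (AL2_sub L))]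
  refine setLIntegral_congr_fun (AL2_meas L) (fun ζ hζ => ?_)
  rw [AL2_det, abs_of_nonneg (by positivity), ← ENNReal.ofReal_mul (by positivity)]
  congr 1
  rw [norm_div, div_pow]
  ring

theorem AL2_shift (L : ℝ) (μ : ℂ) (hμ : μ ≠ 0) (G : ℂ → ℂ)
    (h : ∀ ζ ∈ St, G (ζ + L) = μ * G ζ) (j : ℤ) :
    ∀ ζ ∈ St, G (ζ + (j : ℂ) * L) = μ ^ j * G ζ := by
  have hSt : ∀ (ζ : ℂ) (j : ℤ), ζ ∈ St → ζ + (j : ℂ) * L ∈ St := by
    intro ζ j hζ
    have : (ζ + (j : ℂ) * L).im = ζ.im := by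
      simp [Complex.add_im, Complex.mul_im]
    change |(ζ + (j : ℂ) * L).im| < Real.pi / 2
    rw [this]
    exact hζ
  induction j using Int.induction_on with
  | zero => intro ζ _; simp
  | succ j ih =>
    intro ζ hζ
    have e : ζ + (((j : ℤ) + 1 : ℤ) : ℂ) * L = (ζ + ((j : ℤ) : ℂ) * L) + L := by
      push_cast; ring
    rw [e, h _ (hSt ζ j hζ), ih ζ hζ, zpow_add_one₀ hμ]
    ring
  | pred j ih =>
    intro ζ hζ
    have e : ζ + ((-(j : ℤ) : ℤ) : ℂ) * L = (ζ + ((-(j : ℤ) - 1 : ℤ) : ℂ) * L) + L := by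
      push_cast; ring
    have h1 := ih ζ hζ
    rw [e, h _ (hSt ζ _ hζ)] at h1
    rw [zpow_sub_one₀ hμ]
    have h2 : G (ζ + ((-(j : ℤ) - 1 : ℤ) : ℂ) * L) = μ⁻¹ * (μ ^ (-(j : ℤ)) * G ζ) := by
      rw [← h1, ← mul_assoc, inv_mul_cancel₀ hμ, one_mul]
    rw [h2]
    ring

theorem AL2 (h4 : AL4_stmt) : AL2_stmt := by
  intro Θ G L μ hL hμ hG hinj
  have hμ0 : μ ≠ 0 := by
    intro h
    rw [h, norm_zero] at hμ
    linarith
  have hinj1 : ∀ θ ∈ Θ, InjOn (G θ) St := fun θ hθ ζ hζ ζ' hζ' he =>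
    (hinj θ hθ θ hθ ζ hζ ζ' hζ' he).2
  have e1 : ∑ θ ∈ Θ, ∫⁻ ζ in Rc L, ENNReal.ofReal (‖deriv (G θ) ζ / G θ ζ‖ ^ 2)
      = ∑ θ ∈ Θ, ∫⁻ x in G θ '' Rc L, ENNReal.ofReal (1 / ‖x‖ ^ 2) := by
    refine Finset.sum_congr rfl (fun θ hθ => ?_)
    exact AL2_cov L (G θ) (hG θ hθ).1 (hinj1 θ hθ) (fun ζ hζ => ((hG θ hθ).2 ζ hζ).1)
  have hm : ∀ θ ∈ Θ, MeasurableSet (G θ '' Rc L) := fun θ hθ =>
    (AL2_meas L).image_of_continuousOn_injOn
      (((hG θ hθ).1.continuousOn).mono (AL2_sub L)) ((hinj1 θ hθ).mono (AL2_sub L))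
  have hd : (Θ : Set ℝ).PairwiseDisjoint (fun θ => G θ '' Rc L) := by
    intro θ hθ θ' hθ' hne
    rw [Function.onFun, Set.disjoint_left]
    rintro x ⟨ζ, hζ, rfl⟩ ⟨ζ', hζ', he⟩
    exact hne (hinj θ hθ θ' hθ' ζ (AL2_sub L hζ) ζ' (AL2_sub L hζ') he.symm).1
  rw [e1, ← lintegral_biUnion_finset hd hm]
  refine h4 _ μ (Finset.measurableSet_biUnion Θ hm) hμ ?_ ?_
  · simp only [Set.mem_iUnion, not_exists]
    rintro θ hθ ⟨ζ, hζ, he⟩
    exact ((hG θ hθ).2 ζ (AL2_sub L hζ)).1 he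
  · intro x hx j hj
    simp only [Set.mem_iUnion] at hx hj
    obtain ⟨θ, hθ, ζ, hζ, rfl⟩ := hx
    obtain ⟨θ', hθ', ζ', hζ', he⟩ := hj
    rw [← AL2_shift L μ hμ0 (G θ) (fun z hz => ((hG θ hθ).2 z hz).2) j ζ (AL2_sub L hζ)] at he
    have hSt : ζ + (j : ℂ) * L ∈ St := by
      have : (ζ + (j : ℂ) * L).im = ζ.im := by
        simp [Complex.add_im, Complex.mul_im]
      change |(ζ + (j : ℂ) * L).im| < Real.pi / 2
      rw [this]
      exact AL2_sub L hζ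
    have h2 := (hinj θ' hθ' θ hθ ζ' (AL2_sub L hζ') _ hSt he).2
    have h3 : ζ'.re = ζ.re + j * L := by
      rw [h2]
      simp [Complex.add_re, Complex.mul_re]
    have a1 := hζ.1
    have a2 := hζ.2.1
    have b1 := hζ'.1
    have b2 := hζ'.2.1
    have hj1 : (j : ℝ) < 1 := by
      by_contra hc
      push Not at hc
      nlinarith
    have hj2 : (-1 : ℝ) < j := by
      by_contra hc
      push Not at hc
      nlinarith
    have hj1' : j < 1 := by exact_mod_cast hj1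
    have hj2' : -1 < j := by exact_mod_cast hj2
    omega

end PLY
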