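import Pool.Agent.helper94.PL.Spec
import Pool.Agent.helper74.MQ.App

/-!
# Project pl2, module FI2: the rate away from the direction 1
-/

set_option autoImplicit false

open Complex Metric Set Filter Topology MeasureTheory MPS
open Pool.Agent.helper16.Multibrot

noncomputable section

namespace PLY

/-- FI2: the rate. -/
def FI2_stmt : Prop := ∀ n : ℕ, 2 ≤ n → ∀ d > (0 : ℝ), ∃ K : ℝ, ∀ c ∈ multibrot n,
  ∀ (k : ℕ) (z : ℂ) (Θ : Finset ℝ), 0 < k → Function.minimalPeriod (fc n c) z = k →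
  d ≤ ‖mlt n k c z / ‖mlt n k c z‖ - 1‖ → (∀ θ ∈ Θ, 0 ≤ θ ∧ θ < 1 ∧ Lands n c θ z) →
    infDist c (hyperbolic n) * (Θ.card : ℝ) ≤ K * k

theorem FI2 (hPLY : PLY_stmt) (hFD : MQ.FD1_stmt) (hZN : ZN_stmt) : FI2_stmt := by
  intro n hn d hd
  obtain ⟨K, hK⟩ := hFD n hn d hd
  refine ⟨|K| * (2 * Real.log n), ?_⟩
  intro c hc k z Θ hk hz hd' hΘ
  have hn1 : (1 : ℝ) ≤ n := by exact_mod_cast (by omega : 1 ≤ n)
  have hln : 0 ≤ Real.log n := Real.log_nonneg hn1
  have hD : 0 ≤ infDist c (hyperbolic n) := infDist_nonneg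
  rcases hD.eq_or_lt with h0 | hpos
  · rw [← h0, zero_mul]
    positivity
  have hper : (fc n c)^[k] z = z := by
    rw [← hz]; exact Function.iterate_minimalPeriod
  have hdisj : Disjoint (ball c (infDist c (hyperbolic n))) (hyperbolic n) := by
    rw [Set.disjoint_left]
    intro c' hc' hH
    have h1 : infDist c (hyperbolic n) ≤ dist c c' := infDist_le_dist_of_mem hH
    rw [Metric.mem_ball, dist_comm] at hc'
    linarith
  have hgt : 1 < ‖mlt n k c z‖ :=
    hZN n c _ hn hdisj c (mem_ball_self hpos) k z hk hper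
  have h1 := hK c hc k z hk hz hgt hd'
  have h2 := hPLY n k c z Θ hn hc hk hper hgt hΘ
  have hl : 0 ≤ Real.log ‖mlt n k c z‖ := Real.log_nonneg hgt.le
  calc infDist c (hyperbolic n) * (Θ.card : ℝ)
      ≤ (|K| * Real.log ‖mlt n k c z‖) * (Θ.card : ℝ) := by
        refine mul_le_mul_of_nonneg_right (h1.trans ?_) (Nat.cast_nonneg _)
        exact mul_le_mul_of_nonneg_right (le_abs_self K) hl
    _ = |K| * ((Θ.card : ℝ) * Real.log ‖mlt n k c z‖) := by ring
    _ ≤ |K| * (2 * k * Real.log n) := mul_le_mul_of_nonneg_left h2 (abs_nonneg K)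
    _ = |K| * (2 * Real.log n) * k := by ring

end PLY
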