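import Pool.Agent.helper94.PL.Spec

/-!
# Project pl2, module FIN: the final theorem
-/

set_option autoImplicit false

open Complex Metric Set Filter Topology MeasureTheory MPS
open Pool.Agent.helper16.Multibrot

noncomputable section

namespace PLY

theorem FIN_nonempty (n : ℕ) (hn : 2 ≤ n) : (hyperbolic n).Nonempty := by
  refine ⟨0, 0, 1, one_pos, ?_, ?_⟩
  · simp only [Function.iterate_one, add_zero]
    exact zero_pow (by omega)
  · simp only [Function.iterate_one, add_zero]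
    rw [deriv_pow_field]
    have : n - 1 ≠ 0 := by omega
    simp [zero_pow this]

theorem FIN_one (hPLY : PLY_stmt) (hFW : V3W.FW_stmt) (n : ℕ) (hn : 2 ≤ n) (ε : ℝ) (hε : 0 < ε) :
    ∃ K : ℝ, ∀ c ∈ multibrot n, ∀ (k : ℕ) (z : ℂ) (Θ : Finset ℝ), 0 < k →
    Function.minimalPeriod (fc n c) z = k → (∀ θ ∈ Θ, 0 ≤ θ ∧ θ < 1 ∧ Lands n c θ z) →
    K * k < (Θ.card : ℝ) → infDist c (hyperbolic n) < ε := by
  obtain ⟨δ, hδ, hW⟩ := hFW n hn ε hε
  have hl : 0 < Real.log (1 + δ) := Real.log_pos (by linarith)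
  refine ⟨2 * Real.log n / Real.log (1 + δ), ?_⟩
  intro c hc k z Θ hk hz hΘ hlt
  by_contra hcon
  push Not at hcon
  have hdisj : Disjoint (ball c ε) (hyperbolic n) := by
    rw [Set.disjoint_left]
    intro c' hc' hH
    have h1 : infDist c (hyperbolic n) ≤ dist c c' := infDist_le_dist_of_mem hH
    rw [Metric.mem_ball, dist_comm] at hc'
    linarith
  have h1 := hW c hdisj k z hk hz
  have hper : (fc n c)^[k] z = z := by
    rw [← hz]; exact Function.iterate_minimalPeriod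
  have h2 := hPLY n k c z Θ hn hc hk hper (by linarith) hΘ
  have h3 : Real.log (1 + δ) ≤ Real.log ‖mlt n k c z‖ := Real.log_le_log (by linarith) h1
  have h4 : (Θ.card : ℝ) * Real.log (1 + δ) ≤ 2 * k * Real.log n :=
    (mul_le_mul_of_nonneg_left h3 (Nat.cast_nonneg _)).trans h2
  rw [div_mul_eq_mul_div, div_lt_iff₀ hl] at hlt
  linarith

theorem FIN (hPLY : PLY_stmt) (hFW : V3W.FW_stmt) : FIN_stmt := by
  intro n hn
  refine ⟨fun ε hε => FIN_one hPLY hFW n hn ε hε, ?_⟩
  intro c hc h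
  rw [mem_closure_iff_infDist_zero (FIN_nonempty n hn)]
  refine le_antisymm (le_of_forall_pos_lt_add ?_) infDist_nonneg
  intro ε hε
  obtain ⟨K, hK⟩ := FIN_one hPLY hFW n hn ε hε
  obtain ⟨k, z, Θ, hk, hz, hΘ, hlt⟩ := h K
  rw [zero_add]
  exact hK c hc k z Θ hk hz hΘ hlt

end PLY
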