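import Pool.Agent.helper94.PL.Spec
import Pool.Agent.helper94.PL.FIN
import Pool.Agent.helper94.PL.FI2
import Pool.Agent.helper27.PL.AL1
import Pool.Agent.helper94.PL.AL2
import Pool.Agent.helper25.PL.AL3
import Pool.Agent.helper65.PL.AL4
import Pool.Agent.helper99.PL.BEX
import Pool.Agent.helper91.PL.BGL
import Pool.Agent.helper72.PL.BGR
import Pool.Agent.helper31.PL.BIN
import Pool.Agent.helper51.PL.BIT
import Pool.Agent.helper76.PL.BL0
import Pool.Agent.helper24.PL.BNZ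
import Pool.Agent.helper55.PL.BRO
import Pool.Agent.helper43.PL.BUQ
import Pool.Agent.helper19.PL.ESC
import Pool.Agent.helper76.PL.ETA
import Pool.Agent.helper70.PL.KOE
import Pool.Agent.helper30.PL.MBD
import Pool.Agent.helper59.PL.PL0
import Pool.Agent.helper50.PL.PLA
import Pool.Agent.helper99.PL.PLY
import Pool.Agent.helper8.PL.RA1
import Pool.Agent.helper57.PL.RA2
import Pool.Agent.helper93.PL.RAE
import Pool.Agent.helper77.PL.RAY
import Pool.Agent.helper1.PL.RFE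
import Pool.Agent.helper38.PL.SCV
import Pool.Agent.helper63.PL.UON
import Pool.Agent.helper54.V3.All

/-!
# Project pl2: assembly
-/

set_option autoImplicit false

noncomputable section

namespace PLY

theorem ESC_t : ESC_stmt := ESC
theorem MBD_t : MBD_stmt := MBD ESC_t
theorem BL0_t : BL0_stmt := BL0
theorem BUQ_t : BUQ_stmt := BUQ
theorem BEX_t : BEX_stmt := BEX MBD_t
theorem BGL_t : BGL_stmt := BGL BL0_t BUQ_t BEX_t MBD_t
theorem BIT_t : BIT_stmt := BIT
theorem BNZ_t : BNZ_stmt := BNZ BIT_t MBD_t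
theorem BGR_t : BGR_stmt := BGR ESC_t BIT_t
theorem BRO_t : BRO_stmt := BRO BNZ_t
theorem BIN_t : BIN_stmt := BIN BRO_t BNZ_t BIT_t
theorem RFE_t : RFE_stmt := RFE BIT_t BIN_t
theorem UON_t : UON_stmt := UON
theorem RA1_t : RA1_stmt := RA1 BIT_t BIN_t UON_t
theorem RA2_t : RA2_stmt := RA2 BNZ_t RFE_t
theorem RAY_t : RAY_stmt := RAY RA1_t RA2_t
theorem RAE_t : RAE_stmt := RAE RFE_t
theorem SCV_t : SCV_stmt := SCV BGR_t RFE_t MBD_t V3A.TMO_v
theorem KOE_t : KOE_stmt := KOE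
theorem ETA_t : ETA_stmt := ETA KOE_t SCV_t RFE_t BNZ_t
theorem AL1_t : AL1_stmt := AL1
theorem AL3_t : AL3_stmt := AL3
theorem AL4_t : AL4_stmt := AL4 AL3_t
theorem AL2_t : AL2_stmt := AL2 AL4_t
theorem PLA_t : PLA_stmt := PLA AL1_t AL2_t
theorem PL0_t : PL0_stmt := PL0 ETA_t PLA_t
theorem PLY_t : PLY_stmt := PLY PL0_t RAY_t BGL_t
theorem FIN_t : FIN_stmt := FIN PLY_t V3A.FW_v
theorem FI2_t : FI2_stmt := FI2 PLY_t MQ.FD1_t MPS.ZN_ok

end PLY
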