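import Pool.Agent.helper94.PL.FIN
import Pool.Agent.helper74.XP.SpecR

/-!
# Project pl2, module FI3: the final theorem with a universal constant (from X')
-/

set_option autoImplicit false

open Complex Metric Set Filter Topology MeasureTheory MPS
open Pool.Agent.helper16.Multibrot

noncomputable section

namespace PLY

/-- FI3: universal slope. -/
def FI3_stmt : Prop := ∀ n : ℕ, 2 ≤ n → ∃ C : ℝ,
  (∀ ε > (0 : ℝ), ∃ K : ℝ, ∀ c ∈ multibrot n, ∀ (k : ℕ) (z : ℂ) (Θ : Finset ℝ), 0 < k →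
    Function.minimalPeriod (fc n c) z = k → (∀ θ ∈ Θ, 0 ≤ θ ∧ θ < 1 ∧ Lands n c θ z) →
    C * k + K < (Θ.card : ℝ) → infDist c (hyperbolic n) < ε) ∧
  ∀ c ∈ multibrot n, (∀ K : ℝ, ∃ (k : ℕ) (z : ℂ) (Θ : Finset ℝ), 0 < k ∧
    Function.minimalPeriod (fc n c) z = k ∧ (∀ θ ∈ Θ, 0 ≤ θ ∧ θ < 1 ∧ Lands n c θ z) ∧
    C * k + K < (Θ.card : ℝ)) → c ∈ closure (hyperbolic n)

theorem FI3_bound (hPLY : PLY_stmt) (n k : ℕ) (c z : ℂ) (Θ : Finset ℝ) (δ : ℝ) (hn : 2 ≤ n)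
    (hc : c ∈ multibrot n) (hk : 0 < k) (hz : Function.minimalPeriod (fc n c) z = k)
    (hδ : 0 < δ) (h1 : 1 + δ ≤ ‖mlt n k c z‖) (hΘ : ∀ θ ∈ Θ, 0 ≤ θ ∧ θ < 1 ∧ Lands n c θ z) :
    (Θ.card : ℝ) ≤ 2 * Real.log n / Real.log (1 + δ) * k := by
  have hl : 0 < Real.log (1 + δ) := Real.log_pos (by linarith)
  have hper : (fc n c)^[k] z = z := by
    rw [← hz]; exact Function.iterate_minimalPeriod
  have h2 := hPLY n k c z Θ hn hc hk hper (by linarith) hΘ
  have h3 : Real.log (1 + δ) ≤ Real.log ‖mlt n k c z‖ := Real.log_le_log (by linarith) h1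
  have h4 : (Θ.card : ℝ) * Real.log (1 + δ) ≤ 2 * k * Real.log n :=
    (mul_le_mul_of_nonneg_left h3 (Nat.cast_nonneg _)).trans h2
  rw [div_mul_eq_mul_div, le_div_iff₀ hl]
  linarith

theorem FI3 (hPLY : PLY_stmt) (hFW : V3W.FW_stmt) (hXU : XPP.XU_stmt) : FI3_stmt := by
  intro n hn
  have hn1 : (1 : ℝ) ≤ n := by exact_mod_cast (by omega : 1 ≤ n)
  have hln : 0 ≤ Real.log n := Real.log_nonneg hn1
  obtain ⟨ε₀, hε₀, hX⟩ := hXU n hn
  have hl₀ : 0 < Real.log (1 + ε₀) := Real.log_pos (by linarith)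
  have hC0 : 0 ≤ 2 * Real.log n / Real.log (1 + ε₀) := by positivity
  have key : ∀ ε > (0 : ℝ), ∃ K : ℝ, ∀ c ∈ multibrot n, ∀ (k : ℕ) (z : ℂ) (Θ : Finset ℝ),
      0 < k → Function.minimalPeriod (fc n c) z = k →
      (∀ θ ∈ Θ, 0 ≤ θ ∧ θ < 1 ∧ Lands n c θ z) →
      2 * Real.log n / Real.log (1 + ε₀) * k + K < (Θ.card : ℝ) →
      infDist c (hyperbolic n) < ε := by
    intro ε hε
    obtain ⟨δ, hδ, hW⟩ := hFW n hn ε hε
    obtain ⟨K₀, hK₀⟩ := hX ε hε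
    have hl : 0 < Real.log (1 + δ) := Real.log_pos (by linarith)
    refine ⟨2 * Real.log n / Real.log (1 + δ) * K₀, ?_⟩
    intro c hc k z Θ hk hz hΘ hlt
    by_contra hcon
    push Not at hcon
    have hdisj : Disjoint (ball c ε) (hyperbolic n) := by
      rw [Set.disjoint_left]
      intro c' hc' hH
      have h1 : infDist c (hyperbolic n) ≤ dist c c' := infDist_le_dist_of_mem hH
      rw [Metric.mem_ball, dist_comm] at hc'
      linarith
    have hKpos : 0 ≤ 2 * Real.log n / Real.log (1 + δ) * (K₀ : ℝ) := by positivity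
    rcases le_or_gt K₀ k with hge | hlt'
    · have h1 := hK₀ c hdisj k z hge hk hz
      have h2 := FI3_bound hPLY n k c z Θ ε₀ hn hc hk hz hε₀ h1 hΘ
      linarith
    · have h1 := hW c hdisj k z hk hz
      have h2 := FI3_bound hPLY n k c z Θ δ hn hc hk hz hδ h1 hΘ
      have h3 : 2 * Real.log n / Real.log (1 + δ) * (k : ℝ) ≤
          2 * Real.log n / Real.log (1 + δ) * (K₀ : ℝ) := by
        refine mul_le_mul_of_nonneg_left ?_ (by positivity)
        exact_mod_cast hlt'.le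
      have h4 : 0 ≤ 2 * Real.log n / Real.log (1 + ε₀) * (k : ℝ) := by positivity
      linarith
  refine ⟨2 * Real.log n / Real.log (1 + ε₀), key, ?_⟩
  intro c hc h
  rw [mem_closure_iff_infDist_zero (FIN_nonempty n hn)]
  refine le_antisymm (le_of_forall_pos_lt_add ?_) infDist_nonneg
  intro ε hε
  obtain ⟨K, hK⟩ := key ε hε
  obtain ⟨k, z, Θ, hk, hz, hΘ, hlt⟩ := h K
  rw [zero_add]
  exact hK c hc k z Θ hk hz hΘ hlt

end PLY
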