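import Pool.Agent.helper94.PL.Spec
import Pool.Agent.helper74.XP.SpecQ

/-!
# Project pl2, module FI4: rays per period and invariant line fields (MP_70a088_an)
-/

set_option autoImplicit false

open Complex Metric Set Filter Topology MeasureTheory MPS
open Pool.Agent.helper16.Multibrot Pool.Agent.helper98.ILF

noncomputable section

namespace PLY

/-- FI4: a polynomial `z ^ n + c` with an invariant line field has at most `C(n) k + K` rays at the
repelling periodic points of period `k`. -/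
def FI4_stmt : Prop := ∀ n : ℕ, 2 ≤ n → ∃ C : ℝ, ∀ c ∈ multibrot n,
  c ∈ juliaSet (fun z : ℂ => z ^ n + c) → HasInvariantLineField (fun z : ℂ => z ^ n + c) →
  ∃ K : ℝ, ∀ (k : ℕ) (z : ℂ) (Θ : Finset ℝ), 0 < k →
    Function.minimalPeriod (fc n c) z = k → 1 < ‖mlt n k c z‖ →
    (∀ θ ∈ Θ, 0 ≤ θ ∧ θ < 1 ∧ Lands n c θ z) → (Θ.card : ℝ) ≤ C * k + K

theorem FI4_eval (n : ℕ) (c : ℂ) :
    (fun z : ℂ => (Polynomial.X ^ n + Polynomial.C c : Polynomial ℂ).eval z) =
      fun z : ℂ => z ^ n + c := by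
  funext z
  simp

theorem FI4_CV (n : ℕ) (hn : 2 ≤ n) (c : ℂ) :
    PPS.CV (Polynomial.X ^ n + Polynomial.C c : Polynomial ℂ) = {c} := by
  have hn0 : (n : ℂ) ≠ 0 := by exact_mod_cast (by omega : n ≠ 0)
  ext v
  simp only [PPS.CV, PPS.fd, Set.mem_ofPred_eq, Set.mem_singleton_iff]
  constructor
  · rintro ⟨y, hy, hv⟩
    have h1 : y = 0 := by
      simp only [Polynomial.derivative_add, Polynomial.derivative_X_pow, Polynomial.derivative_C,
        add_zero, Polynomial.eval_mul, Polynomial.eval_C, Polynomial.eval_pow, Polynomial.eval_X,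
        mul_eq_zero, hn0, false_or] at hy
      exact pow_eq_zero_iff (by omega) |>.mp hy
    subst h1
    rw [← hv]
    simp [show n ≠ 0 by omega]
  · rintro rfl
    refine ⟨0, ?_, ?_⟩
    · simp only [Polynomial.derivative_add, Polynomial.derivative_X_pow, Polynomial.derivative_C,
        add_zero, Polynomial.eval_mul, Polynomial.eval_C, Polynomial.eval_pow, Polynomial.eval_X]
      rw [zero_pow (by omega), mul_zero]
    · simp [show n ≠ 0 by omega]

theorem FI4_ind (N : ℕ) (hN : N = 1) (μ : ℂ → ℂ) (hμ : 0 < volume {z | μ z ≠ 0})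
    (l : Fin N → ℂ) (hl : ∀ᵐ z : ℂ, ∑ i, l i * μ z = 0) : l = 0 := by
  subst hN
  have h1 : ∃ z, μ z ≠ 0 ∧ ∑ i, l i * μ z = 0 := by
    by_contra hcon
    push Not at hcon
    have h2 : {z | μ z ≠ 0} ⊆ {z | ¬ ∑ i, l i * μ z = 0} := fun z hz => hcon z hz
    have h3 : volume {z | μ z ≠ 0} ≤ 0 := (measure_mono h2).trans (le_of_eq (ae_iff.mp hl))
    exact absurd h3 (not_le.mpr hμ)
  obtain ⟨z, hz, h2⟩ := h1
  rw [Fin.sum_univ_one] at h2
  funext i
  rw [Subsingleton.elim i 0]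
  simpa using (mul_eq_zero.mp h2).resolve_right hz

theorem FI4 (hPLY : PLY_stmt) (hXLF : XPP.XLF_stmt) : FI4_stmt := by
  intro n hn
  have hn1 : (1 : ℝ) ≤ n := by exact_mod_cast (by omega : 1 ≤ n)
  have hln : 0 ≤ Real.log n := Real.log_nonneg hn1
  obtain ⟨ε, hε, hX⟩ := hXLF n hn
  have hl₀ : 0 < Real.log (1 + ε) := Real.log_pos (by linarith)
  refine ⟨2 * Real.log n / Real.log (1 + ε), ?_⟩
  intro c hc hcJ hLF
  obtain ⟨μ, hμ⟩ := hLF
  set f : Polynomial ℂ := Polynomial.X ^ n + Polynomial.C c with hf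
  have hev : (fun z : ℂ => f.eval z) = fun z : ℂ => z ^ n + c := FI4_eval n c
  have hdeg : f.natDegree = n := Polynomial.natDegree_X_pow_add_C
  have hCV : PPS.CV f = {c} := FI4_CV n hn c
  have hcJ' : c ∈ juliaSet (fun z : ℂ => f.eval z) := by rw [hev]; exact hcJ
  have hN : (PPS.CV f ∩ juliaSet (fun z : ℂ => f.eval z)).ncard = 1 := by
    rw [hCV, Set.singleton_inter_of_mem hcJ', Set.ncard_singleton]
  have hfin := hX f hdeg (by
      intro v hv
      rw [hCV] at hv
      rw [Set.mem_singleton_iff.mp hv]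
      exact Or.inl hcJ') (fun _ => μ) (fun _ => by rw [hev]; exact hμ)
      (fun l hl => FI4_ind _ hN μ hμ.2.2.1 l hl)
  have hmp : ∀ z, Function.minimalPeriod (fun w : ℂ => f.eval w) z =
      Function.minimalPeriod (fc n c) z := by
    intro z
    rw [hev]
    rfl
  have hml : ∀ k z, PPS.mlt f k z = mlt n k c z := by
    intro k z
    simp only [PPS.mlt]
    rw [hev]
    rfl
  set b : ℂ → ℝ := fun z => 2 * (Function.minimalPeriod (fc n c) z : ℝ) * Real.log n /
    |Real.log ‖mlt n (Function.minimalPeriod (fc n c) z) c z‖| with hb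
  have hb0 : ∀ z, 0 ≤ b z := fun z => by rw [hb]; positivity
  refine ⟨∑ z ∈ hfin.toFinset, b z, ?_⟩
  intro k z Θ hk hz hρ hΘ
  have hlρ : 0 < Real.log ‖mlt n k c z‖ := Real.log_pos hρ
  have hper : (fc n c)^[k] z = z := by
    rw [← hz]; exact Function.iterate_minimalPeriod
  have h2 := hPLY n k c z Θ hn hc hk hper hρ hΘ
  have hS0 : 0 ≤ ∑ z ∈ hfin.toFinset, b z := Finset.sum_nonneg fun z _ => hb0 z
  by_cases hlt : ‖mlt n k c z‖ < 1 + ε
  · have hmem : z ∈ hfin.toFinset := by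
      rw [Set.Finite.mem_toFinset]
      refine ⟨k, ⟨⟨hk, by rw [hmp]; exact hz⟩, by rw [hml]; exact hρ⟩, by rw [hml]; exact hlt⟩
    have h3 : b z ≤ ∑ z ∈ hfin.toFinset, b z :=
      Finset.single_le_sum (f := b) (fun z _ => hb0 z) hmem
    have h4 : (Θ.card : ℝ) ≤ b z := by
      rw [hb]
      simp only
      rw [hz, abs_of_pos hlρ, le_div_iff₀ hlρ]
      exact h2
    have h5 : 0 ≤ 2 * Real.log n / Real.log (1 + ε) * (k : ℝ) := by positivity
    linarith
  · push Not at hlt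
    have h3 : Real.log (1 + ε) ≤ Real.log ‖mlt n k c z‖ := Real.log_le_log (by linarith) hlt
    have h4 : (Θ.card : ℝ) * Real.log (1 + ε) ≤ 2 * k * Real.log n :=
      (mul_le_mul_of_nonneg_left h3 (Nat.cast_nonneg _)).trans h2
    have h5 : (Θ.card : ℝ) ≤ 2 * Real.log n / Real.log (1 + ε) * k := by
      rw [div_mul_eq_mul_div, le_div_iff₀ hl₀]
      linarith
    linarith

end PLY
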