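import Pool.Agent.helper94.PL.FI3

/-!
# Project pl2, module FI5: the final theorem, second part with infinitely many periodic points
-/

set_option autoImplicit false

open Complex Metric Set Filter Topology MeasureTheory MPS
open Pool.Agent.helper16.Multibrot

noncomputable section

namespace PLY

/-- FI5: universal slope, for infinitely many periodic points. -/
def FI5_stmt : Prop := ∀ n : ℕ, 2 ≤ n → ∃ C : ℝ,
  (∀ ε > (0 : ℝ), ∃ K : ℝ, ∀ c ∈ multibrot n, ∀ (k : ℕ) (z : ℂ) (Θ : Finset ℝ), 0 < k →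
    Function.minimalPeriod (fc n c) z = k → (∀ θ ∈ Θ, 0 ≤ θ ∧ θ < 1 ∧ Lands n c θ z) →
    C * k + K < (Θ.card : ℝ) → infDist c (hyperbolic n) < ε) ∧
  ∀ c ∈ multibrot n, {z : ℂ | ∃ (k : ℕ) (Θ : Finset ℝ), 0 < k ∧
    Function.minimalPeriod (fc n c) z = k ∧ (∀ θ ∈ Θ, 0 ≤ θ ∧ θ < 1 ∧ Lands n c θ z) ∧
    C * k < (Θ.card : ℝ)}.Infinite → c ∈ closure (hyperbolic n)

theorem FI5_key (hPLY : PLY_stmt) (hFW : V3W.FW_stmt) (n : ℕ) (hn : 2 ≤ n) (ε₀ : ℝ)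
    (hε₀ : 0 < ε₀)
    (hX : ∀ r > (0 : ℝ), ∃ K : ℕ, ∀ c : ℂ, Disjoint (ball c r) (hyperbolic n) →
      ∀ (k : ℕ) (z : ℂ), K ≤ k → 0 < k → Function.minimalPeriod (fc n c) z = k →
      1 + ε₀ ≤ ‖mlt n k c z‖) :
    ∀ ε > (0 : ℝ), ∃ K : ℝ, ∀ c ∈ multibrot n, ∀ (k : ℕ) (z : ℂ) (Θ : Finset ℝ),
      0 < k → Function.minimalPeriod (fc n c) z = k →
      (∀ θ ∈ Θ, 0 ≤ θ ∧ θ < 1 ∧ Lands n c θ z) →
      2 * Real.log n / Real.log (1 + ε₀) * k + K < (Θ.card : ℝ) →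
      infDist c (hyperbolic n) < ε := by
  have hn1 : (1 : ℝ) ≤ n := by exact_mod_cast (by omega : 1 ≤ n)
  have hln : 0 ≤ Real.log n := Real.log_nonneg hn1
  have hl₀ : 0 < Real.log (1 + ε₀) := Real.log_pos (by linarith)
  intro ε hε
  obtain ⟨δ, hδ, hW⟩ := hFW n hn ε hε
  obtain ⟨K₀, hK₀⟩ := hX ε hε
  have hl : 0 < Real.log (1 + δ) := Real.log_pos (by linarith)
  refine ⟨2 * Real.log n / Real.log (1 + δ) * K₀, ?_⟩
  intro c hc k z Θ hk hz hΘ hlt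
  by_contra hcon
  push Not at hcon
  have hdisj : Disjoint (ball c ε) (hyperbolic n) := by
    rw [Set.disjoint_left]
    intro c' hc' hH
    have h1 : infDist c (hyperbolic n) ≤ dist c c' := infDist_le_dist_of_mem hH
    rw [Metric.mem_ball, dist_comm] at hc'
    linarith
  have hKpos : 0 ≤ 2 * Real.log n / Real.log (1 + δ) * (K₀ : ℝ) := by positivity
  rcases le_or_gt K₀ k with hge | hlt'
  · have h1 := hK₀ c hdisj k z hge hk hz
    have h2 := FI3_bound hPLY n k c z Θ ε₀ hn hc hk hz hε₀ h1 hΘ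
    linarith
  · have h1 := hW c hdisj k z hk hz
    have h2 := FI3_bound hPLY n k c z Θ δ hn hc hk hz hδ h1 hΘ
    have h3 : 2 * Real.log n / Real.log (1 + δ) * (k : ℝ) ≤
        2 * Real.log n / Real.log (1 + δ) * (K₀ : ℝ) := by
      refine mul_le_mul_of_nonneg_left ?_ (by positivity)
      exact_mod_cast hlt'.le
    have h4 : 0 ≤ 2 * Real.log n / Real.log (1 + ε₀) * (k : ℝ) := by positivity
    linarith

theorem FI5 (hPLY : PLY_stmt) (hFW : V3W.FW_stmt) (hXU : XPP.XU_stmt) (hXF : XPP.XF_stmt) :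
    FI5_stmt := by
  intro n hn
  obtain ⟨ε₁, hε₁, hX⟩ := hXU n hn
  obtain ⟨ε₂, hε₂, hF⟩ := hXF n hn
  have hm : 0 < min ε₁ ε₂ := lt_min hε₁ hε₂
  refine ⟨2 * Real.log n / Real.log (1 + min ε₁ ε₂), ?_, ?_⟩
  · refine FI5_key hPLY hFW n hn (min ε₁ ε₂) hm (fun r hr => ?_)
    obtain ⟨K, hK⟩ := hX r hr
    refine ⟨K, fun c hc k z hKk hk hz => ?_⟩
    have h1 := hK c hc k z hKk hk hz
    have h2 := min_le_left ε₁ ε₂
    linarith
  · intro c hc hinf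
    by_contra hcl
    apply hinf
    refine (hF c hcl).subset ?_
    rintro z ⟨k, Θ, hk, hz, hΘ, hlt⟩
    refine ⟨k, hk, hz, ?_⟩
    have h2 := min_le_right ε₁ ε₂
    by_contra hcon
    push Not at hcon
    have h1 : 1 + min ε₁ ε₂ ≤ ‖mlt n k c z‖ := by linarith
    have h3 := FI3_bound hPLY n k c z Θ (min ε₁ ε₂) hn hc hk hz hm h1 hΘ
    linarith

end PLY
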