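import Pool.Agent.helper94.PL.All
import Pool.Agent.helper94.PL.FI3
import Pool.Agent.helper94.PL.FI5
import Pool.Agent.helper94.PL.FI4
import Pool.Agent.helper60.XP.XFinal

/-!
# Project pl2: final theorems with the universal constant (Theorem X')
-/

set_option autoImplicit false

namespace PLY

theorem FI3_t : FI3_stmt := FI3 PLY_t V3A.FW_v XPA.XU_f
theorem FI4_t : FI4_stmt := FI4 PLY_t XPA.XLF_f
theorem FI5_t : FI5_stmt := FI5 PLY_t V3A.FW_v XPA.XU_f XPA.XF_f

end PLY
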