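import Pool.Agent.helper36.V3.SpecW
import Pool.Agent.helper54.V3.SpecT
import Pool.Agent.lead.Multibrot

/-!
# Project pl2 (MP_af9036_an): dynamic rays, the Pommerenke–Levin–Yoccoz inequality, and Theorem W

RULES. Module `XX` proves `theorem XX (h : YY_stmt) ... : XX_stmt` in the file
`Pool/Agent/<seat>/PL/XX.lean`, `import Pool.Agent.helper94.PL.Spec`, `namespace PLY`, and the two
`open` lines of this file. Hypotheses may be any other statement of this file (no circles; the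
dependencies named in the docstrings are enough) and the statements `V3.KO0_stmt`, `V3.TMO_stmt`
(all of `V3` are proved), `V3W.FW_stmt`. Auxiliary lemmas are prefixed `XX_`. No `sorry`, no double
quotes. `fc n c w = w ^ n + c` and `mlt n k c z = deriv ((fc n c)^[k]) z` are `MPS.fc`, `MPS.mlt`.
Library: `Pool.Agent.helper98.ILF.exists_lift_pow` (holomorphic `n`-th roots on discs,
`Pool/Agent/helper98/ILF/Lift.lean`), `Pool.Agent.LeadMultibrot.norm_pow_le_two`.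
-/

set_option autoImplicit false

open Complex Metric Set Filter Topology MeasureTheory MPS
open Pool.Agent.helper16.Multibrot

noncomputable section

namespace PLY

/-! ## Definitions -/

/-- `γ` is the dynamic ray of `w ^ n + c` of the periodic angle `θ` (in turns), parametrized by the
potential `t > 0`: it is invariant under an iterate `f^m` with `(n^m - 1) θ ∈ ℤ`, and it is asymptotic
to `exp (t + 2 π i θ)` at infinity. -/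
def IsRay (n : ℕ) (c : ℂ) (θ : ℝ) (γ : ℝ → ℂ) : Prop :=
  ContinuousOn γ (Ioi 0) ∧ (∃ m : ℕ, 0 < m ∧ (∃ j : ℤ, ((n : ℝ) ^ m - 1) * θ = j) ∧
    ∀ t : ℝ, 0 < t → (fc n c)^[m] (γ t) = γ ((n : ℝ) ^ m * t)) ∧
  Tendsto (fun t : ℝ => γ t * Complex.exp (-((t : ℂ) + 2 * Real.pi * θ * I))) atTop (𝓝 1)

/-- the dynamic ray of the periodic angle `θ` lands at `z`. -/
def Lands (n : ℕ) (c : ℂ) (θ : ℝ) (z : ℂ) : Prop :=
  ∃ γ : ℝ → ℂ, IsRay n c θ γ ∧ Tendsto γ (𝓝[>] 0) (𝓝 z)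

/-- the right half-plane. -/
def RH : Set ℂ := {s | 0 < s.re}

/-- the strip. -/
def St : Set ℂ := {ζ | |ζ.im| < Real.pi / 2}

/-- the half-open rectangle of length `L` in the strip. -/
def Rc (L : ℝ) : Set ℂ := {ζ | 0 ≤ ζ.re ∧ ζ.re < L ∧ |ζ.im| < Real.pi / 2}

/-- the functional equation; `w * E w⁻¹` is the inverse of the Böttcher coordinate. -/
structure BE (n : ℕ) (c : ℂ) (r : ℝ) (E : ℂ → ℂ) : Prop where
  hol : DifferentiableOn ℂ E (ball 0 r)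
  one : E 0 = 1
  fe : ∀ v ∈ ball (0 : ℂ) r, E v ^ n = E (v ^ n) - c * v ^ n

/-- the inverse of the Böttcher coordinate. -/
def chi (E : ℂ → ℂ) (w : ℂ) : ℂ := w * E w⁻¹

/-- the point of potential `s.re` and angle `θ + s.im / 2π`. -/
def ry (E : ℂ → ℂ) (θ : ℝ) (s : ℂ) : ℂ := chi E (Complex.exp (s + 2 * Real.pi * θ * I))

/-- `θ` is fixed by multiplication by `n ^ m` modulo `1`. -/
def Fx (n m : ℕ) (θ : ℝ) : Prop := ∃ j : ℤ, ((n : ℝ) ^ m - 1) * θ = j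

/-! ## Part 1: the Böttcher coordinate -/

/-- **ESC** (short). uses: nothing. Escape.
Proof. If `4 ≤ ‖x‖` then, with `y = ‖x‖/2 ≥ 2`: `‖x^n + c‖ ≥ 2^n y^n - 2 ≥ 4 y^n - 2 ≥ 2 y^n`. So
`y_j = ‖f^j z‖/2` satisfies `y_{j+1} ≥ y_j^n` and stays `≥ 2`; induction on `j`
(`Function.iterate_succ_apply'`, `pow_succ`, `pow_mul`). -/
def ESC_stmt : Prop := ∀ (n : ℕ) (c z : ℂ) (j : ℕ), 2 ≤ n → ‖c‖ ≤ 2 → 4 ≤ ‖z‖ →
  2 * (‖z‖ / 2) ^ (n ^ j) ≤ ‖(fc n c)^[j] z‖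

/-- **MBD** (short). uses: ESC_stmt. The critical orbit is bounded.
Proof. `‖c‖ ≤ 2` by `LeadMultibrot.norm_pow_le_two`. If `‖f^j 0‖ ≥ 4` then `‖f^(i+j) 0‖ → ∞` by ESC
(`2^(n^i) → ∞`), contradiction to `c ∈ multibrot n`. Last claim (a bounded orbit stays in
`ball 0 4`): the same argument for every point whose orbit is bounded. -/
def MBD_stmt : Prop := ∀ (n : ℕ) (c : ℂ), 2 ≤ n → c ∈ multibrot n →
  ‖c‖ ≤ 2 ∧ (∀ j : ℕ, ‖(fc n c)^[j] 0‖ < 4) ∧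
  ∀ z : ℂ, (∃ B : ℝ, ∀ j : ℕ, ‖(fc n c)^[j] z‖ ≤ B) → ‖z‖ < 4

/-- **BL0** (medium). uses: nothing. The local solution.
Proof. `E_0 = 1`, `E_{j+1} v = (E_j (v^n) - c v^n)^(1/n)` (principal branch, `cpow`) on
`B = ball 0 (1/5)`; `v^n ∈ B`, `‖c v^n‖ ≤ 2/25`. If `‖E_j - 1‖ ≤ 1/4` on `B` then
`x = E_j (v^n) - 1 - c v^n` has `‖x‖ ≤ 0.33`; on `‖x‖ ≤ 0.33` the derivative `(1/n) (1+x)^(1/n-1)` of
`(1+x)^(1/n)` has modulus `≤ (1/n) (0.67)^(1/n - 1) ≤ 0.62` (`n = 2`: `0.62`; `n ≥ 3`: `≤ 0.5`), so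
`‖E_{j+1} - 1‖ ≤ 0.62 · 0.33 ≤ 1/4` and `‖E_{j+1} - E_j‖_B ≤ 0.62 ‖E_j - E_{j-1}‖_B` (mean value
inequality on the convex disc). The limit `E` is uniform, holomorphic, `E 0 = 1`, `‖E - 1‖ ≤ 1/4`.
(Any other construction is fine; e.g. with `exp`/`log`.) -/
def BL0_stmt : Prop := ∀ (n : ℕ) (c : ℂ), 2 ≤ n → ‖c‖ ≤ 2 → ∃ E : ℂ → ℂ, BE n c (1 / 5) E

/-- **BUQ** (medium). uses: nothing. Uniqueness.
Proof. `A v = ∑ i ∈ range n, E v ^ i * E' v ^ (n-1-i)` is continuous at `0` and `A 0 = n`; take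
`0 < s < r`, `s ≤ 1` with `‖A v‖ ≥ n - 1/2` on `closedBall 0 s`. `(E v - E' v) A v = E v^n - E' v^n =
E (v^n) - E' (v^n)`. Let `M = max ‖E - E'‖` on `closedBall 0 s`, attained at `v₀`; `v₀^n` is in the
ball, so `M (n - 1/2) ≤ M`, `M = 0`. Identity theorem on `ball 0 r`
(`AnalyticOnNhd.eqOn_of_preconnected_of_eventuallyEq`). -/
def BUQ_stmt : Prop := ∀ (n : ℕ) (c : ℂ) (r : ℝ) (E E' : ℂ → ℂ), 2 ≤ n → 0 < r → r ≤ 1 →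
  BE n c r E → BE n c r E' → ∀ v ∈ ball (0 : ℂ) r, E v = E' v

/-- **BEX** (medium). uses: MBD_stmt; library: `exists_lift_pow`. The extension step.
Proof. `F v = E (v^n) - c v^n` is holomorphic on `ball 0 (r^(1/n))` (`‖v^n‖ < r`), `F 0 = 1`. `F` has
no zero: if `F v = 0` then `v ≠ 0`, and with `u = (v^n)⁻¹`, `‖u‖ > 1/r`: `chi E u = u E(v^n) = c`. For
`‖u‖ > 1/r` the equation `fe` gives `fc n c (chi E u) = chi E (u^n)`, so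
`f^j c = chi E (u^(n^j)) = u^(n^j) E(small) → ∞`, but `f^j c = f^(j+1) 0` is bounded (MBD). Let `g` be
the `n`-th root of `F` with `g 0 = 1`. On `ball 0 r`: `g^n = F = E^n` (`fe`), `E ≠ 0`; `h = g/E` has
`h^n = 1`, `h 0 = 1`, so `h = 1` (its derivative vanishes: `n h^(n-1) h' = 0`). So `g = E` on
`ball 0 r`, and `g (v^n) = E (v^n)` for `‖v‖ < r^(1/n)`. -/
def BEX_stmt : Prop := ∀ (n : ℕ) (c : ℂ) (r : ℝ) (E : ℂ → ℂ), 2 ≤ n → c ∈ multibrot n → 0 < r →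
  r < 1 → BE n c r E → ∃ E' : ℂ → ℂ, BE n c (r ^ (1 / (n : ℝ))) E' ∧
    ∀ v ∈ ball (0 : ℂ) r, E' v = E v

/-- **BGL** (medium). uses: BL0_stmt, BUQ_stmt, BEX_stmt, MBD_stmt. The solution on the unit disc.
Proof. `r_j = (1/5)^(1/n^j) → 1`, solutions `E_j` on `ball 0 r_j` by induction (BL0, BEX); by BUQ
`E_i = E_j` on `ball 0 r_i`, `i ≤ j` (restrict). `E v = E_{j(v)} v`, `j(v)` the least `j` with
`‖v‖ < r_j`. -/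
def BGL_stmt : Prop := ∀ (n : ℕ) (c : ℂ), 2 ≤ n → c ∈ multibrot n → ∃ E : ℂ → ℂ, BE n c 1 E

/-- **BIT** (short). uses: nothing. Iteration and escape.
Proof. `fc n c (chi E w) = w^n E(w⁻¹)^n + c = w^n (E (w⁻¹^n) - c w⁻¹^n) + c = chi E (w^n)`; induction.
`‖chi E (w^(n^j))‖ = ‖w‖^(n^j) ‖E(w^(-n^j))‖ → ∞` (`E` is continuous at `0`, `E 0 = 1`). -/
def BIT_stmt : Prop := ∀ (n : ℕ) (c : ℂ) (E : ℂ → ℂ), 2 ≤ n → BE n c 1 E → ∀ w : ℂ, 1 < ‖w‖ →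
  (∀ j : ℕ, (fc n c)^[j] (chi E w) = chi E (w ^ (n ^ j))) ∧
  Tendsto (fun j : ℕ => ‖(fc n c)^[j] (chi E w)‖) atTop atTop

/-- **BNZ** (short). uses: BIT_stmt, MBD_stmt.
Proof. The orbit of `chi E w` tends to infinity, the orbits of `0` and of a periodic point are
bounded. `E v = v chi E v⁻¹` for `v ≠ 0`, `E 0 = 1`. Chain rule:
`deriv f^m (chi E w) = ∏ i < m, n (f^i (chi E w))^(n-1)` and `f^i (chi E w) = chi E (w^(n^i)) ≠ 0`. -/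
def BNZ_stmt : Prop := ∀ (n : ℕ) (c : ℂ) (E : ℂ → ℂ), 2 ≤ n → c ∈ multibrot n → BE n c 1 E →
  (∀ v ∈ ball (0 : ℂ) 1, E v ≠ 0) ∧ ∀ w : ℂ, 1 < ‖w‖ → chi E w ≠ 0 ∧
    (∀ (k : ℕ) (z : ℂ), 0 < k → (fc n c)^[k] z = z → chi E w ≠ z) ∧
    ∀ m : ℕ, deriv ((fc n c)^[m]) (chi E w) ≠ 0

/-- **BGR** (short). uses: ESC_stmt, BIT_stmt. Growth.
Proof. `x = chi E w`. If `‖x‖ < 4` clear. Otherwise `2 (‖x‖/2)^(n^j) ≤ ‖f^j x‖ = ‖w‖^(n^j) ‖E(w^(-n^j))‖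
≤ 2 ‖w‖^(n^j)` for some large `j` (`E` continuous at `0`), so `‖x‖/2 ≤ ‖w‖`. -/
def BGR_stmt : Prop := ∀ (n : ℕ) (c : ℂ) (E : ℂ → ℂ), 2 ≤ n → ‖c‖ ≤ 2 → BE n c 1 E →
  ∀ w : ℂ, 1 < ‖w‖ → ‖chi E w‖ ≤ 4 * ‖w‖

/-- **BRO** (short/medium). uses: BNZ_stmt. Rotation.
Proof. `h v = E (ζ v)/E v` is holomorphic on the unit disc (`‖ζ‖ = 1`), `h 0 = 1` and
`h^n = (E ((ζ v)^n) - c (ζ v)^n)/(E (v^n) - c v^n) = 1`. So `h' = 0` (`n h^(n-1) h' = 0`), `h = 1`. -/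
def BRO_stmt : Prop := ∀ (n : ℕ) (c : ℂ) (E : ℂ → ℂ), 2 ≤ n → c ∈ multibrot n → BE n c 1 E →
  ∀ ζ : ℂ, ζ ^ n = 1 → ∀ v ∈ ball (0 : ℂ) 1, E (ζ * v) = E v

/-- **BIN** (medium). uses: BRO_stmt, BNZ_stmt, BIT_stmt. Injectivity.
Proof. (i) `X v = v/E v` has strict derivative `1` at `0`, so it is injective on a ball `ball 0 δ`,
`δ ≤ 1`; `chi E w = (X w⁻¹)⁻¹`. So `chi E` is injective on `‖w‖ > 1/δ`. (ii) Induction on `j`: if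
`‖w‖^(n^j), ‖w'‖^(n^j) > 1/δ` and `chi E w = chi E w'` then `w = w'`. Step: `chi E (w^n) =
fc n c (chi E w) = chi E (w'^n)`, so `w^n = w'^n`, `w = ζ w'`, `ζ^n = 1`; BRO:
`chi E w = ζ w' E (ζ⁻¹ w'⁻¹) = ζ chi E w'`, and `chi E w' ≠ 0`: `ζ = 1`. -/
def BIN_stmt : Prop := ∀ (n : ℕ) (c : ℂ) (E : ℂ → ℂ), 2 ≤ n → c ∈ multibrot n → BE n c 1 E →
  InjOn (chi E) {w | 1 < ‖w‖}

/-! ## Part 2: rays -/

/-- **RFE** (short/medium). uses: BIT_stmt, BIN_stmt. The functions `ry E θ`.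
Proof. `‖exp (s + 2 π θ i)‖ = exp s.re > 1`. (1) chain rule (`E` holomorphic on the unit disc). (2) BIT:
`exp (s + 2πθi)^(n^m) = exp (n^m s + 2πθi) exp (2πi (n^m - 1)θ)`. (3) BIN and `Complex.exp_eq_exp_iff_exists_int`. -/
def RFE_stmt : Prop := ∀ (n : ℕ) (c : ℂ) (E : ℂ → ℂ), 2 ≤ n → c ∈ multibrot n → BE n c 1 E →
  (∀ θ : ℝ, DifferentiableOn ℂ (ry E θ) RH) ∧
  (∀ (θ : ℝ) (m : ℕ), Fx n m θ → ∀ s ∈ RH, (fc n c)^[m] (ry E θ s) = ry E θ ((n : ℂ) ^ m * s)) ∧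
  ∀ (θ θ' : ℝ), ∀ s ∈ RH, ∀ s' ∈ RH, ry E θ s = ry E θ' s' →
    ∃ j : ℤ, s - s' + 2 * Real.pi * (θ - θ') * I = 2 * Real.pi * j * I

/-- **UON** (short). uses: nothing.
Proof. `u^Λ - 1 = (u - 1) ∑ i < Λ, u^i` and the sum tends to `Λ ≥ 2` as `u → 1`: for `t ≥ T`
`‖u (Λ t) - 1‖ ≥ 3/2 ‖u t - 1‖` and `‖u t - 1‖ ≤ 1`, so `(3/2)^j ‖u t - 1‖ ≤ 1` for all `j`. -/
def UON_stmt : Prop := ∀ (Λ : ℕ) (u : ℝ → ℂ), 2 ≤ Λ → Tendsto u atTop (𝓝 1) →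
  (∃ T₀ : ℝ, ∀ t : ℝ, T₀ ≤ t → u (Λ * t) = u t ^ Λ) → ∃ T : ℝ, 0 < T ∧ ∀ t : ℝ, T ≤ t → u t = 1

/-- **RA1** (medium). uses: BIT_stmt, BIN_stmt, UON_stmt. Rays near infinity.
Proof. `X v = v/E v` near `0`, strict derivative `1`; `Y` its local inverse
(`HasStrictDerivAt.localInverse`), `Y x/x → 1`. For large `t`: `w t = (Y (γ t)⁻¹)⁻¹`,
`chi E (w t) = (X (w t)⁻¹)⁻¹ = γ t`, `w t/γ t → 1`, so `u t = w t exp (-(t + 2πθi)) → 1`. With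
`Λ = n^m`: `chi E (w t ^ Λ) = f^m (γ t) = γ (Λ t) = chi E (w (Λ t))` (BIT), BIN: `w (Λ t) = w t ^ Λ`, so
`u (Λ t) = u t ^ Λ` (as `exp (2πi (Λ-1) θ) = 1`). UON: `u t = 1`, `γ t = chi E (exp (t + 2πθi))`. -/
def RA1_stmt : Prop := ∀ (n m : ℕ) (c : ℂ) (E : ℂ → ℂ) (θ : ℝ) (γ : ℝ → ℂ), 2 ≤ n →
  c ∈ multibrot n → BE n c 1 E → 0 < m → Fx n m θ →
  (∀ t : ℝ, 0 < t → (fc n c)^[m] (γ t) = γ ((n : ℝ) ^ m * t)) →
  Tendsto (fun t : ℝ => γ t * Complex.exp (-((t : ℂ) + 2 * Real.pi * θ * I))) atTop (𝓝 1) →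
  ∃ T : ℝ, 0 < T ∧ ∀ t : ℝ, T ≤ t → γ t = ry E θ t

/-- **RA2** (medium). uses: BNZ_stmt, RFE_stmt. Continuation of the identity to all `t > 0`.
Proof. `Λ = n^m ≥ 2`, `b t = ry E θ t` (continuous on `t > 0`, `f^m (b t) = b (Λ t)` by RFE). Claim: if
`γ = b` on `[T,∞)` then `γ = b` on `[T/Λ,∞)`: for `t ≥ T/Λ`, `f^m (γ t) = γ (Λ t) = b (Λ t) = f^m (b t)`.
The set `{t ≥ T/Λ : γ t = b t}` is relatively closed in `[T/Λ,∞)`, contains `T`, and is relatively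
open: at such `t₀` the entire function `f^m` has nonzero derivative at `b t₀` (BNZ), so it is
injective near it. Connectedness. Iterate the claim: `T/Λ^j → 0`. -/
def RA2_stmt : Prop := ∀ (n m : ℕ) (c : ℂ) (E : ℂ → ℂ) (θ : ℝ) (γ : ℝ → ℂ) (T : ℝ), 2 ≤ n →
  c ∈ multibrot n → BE n c 1 E → 0 < m → Fx n m θ → ContinuousOn γ (Ioi 0) →
  (∀ t : ℝ, 0 < t → (fc n c)^[m] (γ t) = γ ((n : ℝ) ^ m * t)) → 0 < T →
  (∀ t : ℝ, T ≤ t → γ t = ry E θ t) → ∀ t : ℝ, 0 < t → γ t = ry E θ t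

/-- **RAY** (short). uses: RA1_stmt, RA2_stmt. -/
def RAY_stmt : Prop := ∀ (n : ℕ) (c : ℂ) (E : ℂ → ℂ) (θ : ℝ) (γ : ℝ → ℂ), 2 ≤ n →
  c ∈ multibrot n → BE n c 1 E → IsRay n c θ γ → ∀ t : ℝ, 0 < t → γ t = ry E θ t

/-- **RAE** (short). uses: RFE_stmt. Existence (the definition of `IsRay` is not empty).
Proof. `Tendsto`: `ry E θ t * exp (-(t + 2πθi)) = E (exp (-(t + 2πθi))) → E 0 = 1`. -/
def RAE_stmt : Prop := ∀ (n m : ℕ) (c : ℂ) (E : ℂ → ℂ) (θ : ℝ), 2 ≤ n → c ∈ multibrot n →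
  BE n c 1 E → 0 < m → Fx n m θ → IsRay n c θ (fun t : ℝ => ry E θ t)

/-- **SCV** (medium). uses: BGR_stmt, RFE_stmt, MBD_stmt, `V3.TMO_stmt`. Convergence in sectors.
Proof. Suppose not: then there is an ultrafilter `U ≤ atTop` on `ℕ` with `∀ᶠ j in U, ∃ s ∈ C, ε ≤ ‖…‖`
(`Filter.Frequently`, `Ultrafilter.of`). `f_j s = ry E θ (s/Λ^j)` is holomorphic on `RH` and bounded by
`4 exp (s.re/Λ^j) ≤ 4 exp s.re` (BGR). TMO: `f_j → F` locally uniformly on `RH` along `U`, `F`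
holomorphic; `F t = z` for real `t > 0` (`t/Λ^j → 0⁺`), so `F = z` on `RH` (identity theorem,
`1` is an accumulation point of the reals; `RH` is convex). Uniform convergence on the compact set `C`
(`tendstoLocallyUniformlyOn_iff_forall_isCompact`) contradicts the choice of `U`. -/
def SCV_stmt : Prop := ∀ (n : ℕ) (c : ℂ) (E : ℂ → ℂ) (θ Λ : ℝ) (z : ℂ), 2 ≤ n →
  c ∈ multibrot n → BE n c 1 E → 1 < Λ → Tendsto (fun t : ℝ => ry E θ t) (𝓝[>] 0) (𝓝 z) →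
  ∀ C : Set ℂ, C ⊆ RH → IsCompact C → ∀ ε > (0 : ℝ), ∀ᶠ j : ℕ in atTop, ∀ s ∈ C,
    ‖ry E θ (s / (Λ : ℂ) ^ j) - z‖ < ε

/-- **KOE** (medium). uses: nothing. Koenigs' linearization.
Proof. Local inverse `g` of `F` at `z` (`HasStrictDerivAt.to_localInverse`, holomorphic): for small `r`,
`g` maps `ball z r` to itself, `F (g x) = x`, `‖g x - z‖ ≤ κ ‖x - z‖` with `κ = ‖μ‖^(-3/4)`
(`‖g' z‖ = 1/‖μ‖ < κ`), `F` is injective on `ball z r` (so `g (F x) = x` if `x, F x ∈ ball z r`), and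
`‖μ (g x - z) - (x - z)‖ ≤ C ‖x - z‖²` (Taylor). `λ_j x = μ^j (g^j x - z)`:
`‖λ_{j+1} x - λ_j x‖ ≤ C ‖μ‖^j κ^(2j) r² = C r² ‖μ‖^(-j/2)`: uniform convergence, `λ` holomorphic,
`λ (g x) = μ⁻¹ λ x`, `λ' z = 1` (`TendstoLocallyUniformlyOn.deriv`), so `λ` is injective on a smaller
ball. (`λ (F x) = μ λ x` from `x = g (F x)`.) -/
def KOE_stmt : Prop := ∀ (F : ℂ → ℂ) (z μ : ℂ), Differentiable ℂ F → F z = z → deriv F z = μ →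
  1 < ‖μ‖ → ∃ r > (0 : ℝ), ∃ lam : ℂ → ℂ, DifferentiableOn ℂ lam (ball z r) ∧
    InjOn lam (ball z r) ∧ lam z = 0 ∧ ∀ x ∈ ball z r, F x ∈ ball z r → lam (F x) = μ * lam x

/-- **ETA** (medium/LONG). uses: KOE_stmt, SCV_stmt, RFE_stmt, BNZ_stmt. The lifted sectors.
Proof. `F = f^K` (entire), `Λ = n^K ≥ 2`, `μ = mlt n K c z`; `r, lam` of KOE. For `θ ∈ Θ` and a compact
`C ⊆ RH` (e.g. a closed ball about `s`) SCV gives `j₀` with `ry E θ (s/Λ^j) ∈ ball z r` for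
`s ∈ C`, `j ≥ j₀`. For such `j` (RFE) `F (ry E θ (s/Λ^(j+1))) = ry E θ (s/Λ^j)`, so
`μ^(j+1) lam (ry E θ (s/Λ^(j+1))) = μ^j lam (ry E θ (s/Λ^j))`: constant for `j ≥ j₀`. `η θ s` = this
eventual value (e.g. `limUnder atTop`). Holomorphic near `s` (one `j` for a neighbourhood). `≠ 0`:
`ry … ≠ z` (BNZ) and `lam` injective with `lam z = 0`. `η θ (Λ s) = μ η θ s`: index shift. If
`η θ s = η θ' s'`: for all large `j`, `ry E θ (s/Λ^j) = ry E θ' (s'/Λ^j)`, RFE: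
`s/Λ^j - s'/Λ^j + 2π(θ-θ')i = 2π m_j i`, so the integers `m_j → θ - θ' ∈ (-1,1)`: `m_j = 0`
eventually (`m_j` is eventually constant `= θ - θ'`, an integer in `(-1,1)`), `θ = θ'`, `s = s'`. -/
def ETA_stmt : Prop := ∀ (n K : ℕ) (c z : ℂ) (E : ℂ → ℂ) (Θ : Finset ℝ), 2 ≤ n →
  c ∈ multibrot n → BE n c 1 E → 0 < K → (fc n c)^[K] z = z → 1 < ‖mlt n K c z‖ →
  (∀ θ ∈ Θ, 0 ≤ θ ∧ θ < 1 ∧ Fx n K θ ∧ Tendsto (fun t : ℝ => ry E θ t) (𝓝[>] 0) (𝓝 z)) →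
  ∃ η : ℝ → ℂ → ℂ, (∀ θ ∈ Θ, DifferentiableOn ℂ (η θ) RH ∧
      ∀ s ∈ RH, η θ s ≠ 0 ∧ η θ ((n : ℂ) ^ K * s) = mlt n K c z * η θ s) ∧
    ∀ θ ∈ Θ, ∀ θ' ∈ Θ, ∀ s ∈ RH, ∀ s' ∈ RH, η θ s = η θ' s' → θ = θ' ∧ s = s'

/-! ## Part 3: area and length -/

/-- **AL1** (medium). uses: nothing. Length–area on the rectangle.
Proof. Fix `y`, `|y| < π/2`; `h x = log ‖G (x + i y)‖` has derivative `Re (G'/G)(x + i y)` and
`h L - h 0 = a`, so `a ≤ ∫ x in 0..L, ‖G'/G‖`, Cauchy–Schwarz: `a² ≤ L ∫ x in 0..L, ‖G'/G‖²`.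
Integrate over `y` (Fubini for `lintegral`, `Complex.measurableEquivRealProd`,
`Complex.volume_preserving_equiv_real_prod`; everything is continuous on `St`). -/
def AL1_stmt : Prop := ∀ (L a : ℝ) (G : ℂ → ℂ), 0 < L → 0 < a → DifferentiableOn ℂ G St →
  (∀ ζ ∈ St, G ζ ≠ 0 ∧ ‖G (ζ + L)‖ = Real.exp a * ‖G ζ‖) →
  ENNReal.ofReal (Real.pi * a ^ 2) ≤
    ENNReal.ofReal L * ∫⁻ ζ in Rc L, ENNReal.ofReal (‖deriv G ζ / G ζ‖ ^ 2)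

/-- **AL3** (medium). uses: nothing. The logarithmic area of a fundamental annulus.
Proof. Polar coordinates (`Complex.lintegral_comp_polarCoord_symm` or
`Complex.integral_comp_polarCoord_symm`) or the change of variables `x = exp ζ` on
`[0, log m) × (-π, π)`: `∫ r in 1..m, 2π dr/r`. -/
def AL3_stmt : Prop := ∀ m : ℝ, 1 < m →
  ∫⁻ x in {x : ℂ | 1 ≤ ‖x‖ ∧ ‖x‖ < m}, ENNReal.ofReal (1 / ‖x‖ ^ 2)
    = ENNReal.ofReal (2 * Real.pi * Real.log m)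

/-- **AL4** (medium). uses: AL3_stmt. A set that is disjoint from its multiples.
Proof. `A = {1 ≤ ‖x‖ < ‖μ‖}`. Every `x ≠ 0` has exactly one `j : ℤ` with `μ^j x ∈ A`. So `S` is the
disjoint union of `S ∩ μ^(-j) A`, and `∫⁻ S ∩ μ^(-j) A = ∫⁻ μ^j S ∩ A` (the density is invariant under
`x ↦ μ^j x`: scaling of the volume by `‖μ‖^(2j)`, e.g. `Measure.addHaar_image_linearMap` or
`lintegral_image_eq_lintegral_abs_det_fderiv_mul`). The sets `μ^j S ∩ A` are disjoint subsets of `A`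
(hypothesis: `μ^i s = μ^j s'` gives `s' = μ^(i-j) s ∈ S`, `i = j`). Sum over `j`, AL3. -/
def AL4_stmt : Prop := ∀ (S : Set ℂ) (μ : ℂ), MeasurableSet S → 1 < ‖μ‖ → (0 : ℂ) ∉ S →
  (∀ x ∈ S, ∀ j : ℤ, μ ^ j * x ∈ S → j = 0) →
  ∫⁻ x in S, ENNReal.ofReal (1 / ‖x‖ ^ 2) ≤ ENNReal.ofReal (2 * Real.pi * Real.log ‖μ‖)

/-- **AL2** (medium). uses: AL4_stmt. Change of variables.
Proof. `lintegral_image_eq_lintegral_abs_det_fderiv_mul` for `G θ` on `Rc L` (injective, `det = ‖G'‖²`;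
compare `Pool/Agent/helper98/ILF/Density.lean`, `det_smul`):
`∫⁻ ζ in Rc L, ‖G'/G‖² = ∫⁻ x in G θ '' Rc L, 1/‖x‖²`. The images are measurable (injective
continuous image of a Borel set, or: open mapping) and disjoint for different `θ`; their union `S`
satisfies the hypothesis of AL4: `μ^j G θ ζ = G θ (ζ + j L)` for `j : ℤ`, so
`μ^j G θ ζ = G θ' ζ'` gives `θ = θ'`, `ζ' = ζ + j L`, and `0 ≤ ζ.re, ζ'.re < L` gives `j = 0`. -/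
def AL2_stmt : Prop := ∀ (Θ : Finset ℝ) (G : ℝ → ℂ → ℂ) (L : ℝ) (μ : ℂ), 0 < L → 1 < ‖μ‖ →
  (∀ θ ∈ Θ, DifferentiableOn ℂ (G θ) St ∧ ∀ ζ ∈ St, G θ ζ ≠ 0 ∧ G θ (ζ + L) = μ * G θ ζ) →
  (∀ θ ∈ Θ, ∀ θ' ∈ Θ, ∀ ζ ∈ St, ∀ ζ' ∈ St, G θ ζ = G θ' ζ' → θ = θ' ∧ ζ = ζ') →
  ∑ θ ∈ Θ, ∫⁻ ζ in Rc L, ENNReal.ofReal (‖deriv (G θ) ζ / G θ ζ‖ ^ 2)
    ≤ ENNReal.ofReal (2 * Real.pi * Real.log ‖μ‖)

/-- **PLA** (short). uses: AL1_stmt, AL2_stmt.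
Proof. `a = log ‖μ‖ > 0`. Sum AL1 over `Θ`: `card · π a² ≤ L · 2π a` (in `ENNReal`, then in `ℝ`). -/
def PLA_stmt : Prop := ∀ (Θ : Finset ℝ) (G : ℝ → ℂ → ℂ) (L : ℝ) (μ : ℂ), 0 < L → 1 < ‖μ‖ →
  (∀ θ ∈ Θ, DifferentiableOn ℂ (G θ) St ∧ ∀ ζ ∈ St, G θ ζ ≠ 0 ∧ G θ (ζ + L) = μ * G θ ζ) →
  (∀ θ ∈ Θ, ∀ θ' ∈ Θ, ∀ ζ ∈ St, ∀ ζ' ∈ St, G θ ζ = G θ' ζ' → θ = θ' ∧ ζ = ζ') →
  (Θ.card : ℝ) * Real.log ‖μ‖ ≤ 2 * L

/-- **PL0** (short/medium). uses: ETA_stmt, PLA_stmt. The inequality for fixed rays.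
Proof. `G θ ζ = η θ (exp ζ)`, `L = K log n = log (n^K)`: `exp` maps `St` injectively to `RH`
(`(exp ζ).re = exp ζ.re cos ζ.im`), `exp (ζ + L) = n^K exp ζ`. -/
def PL0_stmt : Prop := ∀ (n K : ℕ) (c z : ℂ) (E : ℂ → ℂ) (Θ : Finset ℝ), 2 ≤ n →
  c ∈ multibrot n → BE n c 1 E → 0 < K → (fc n c)^[K] z = z → 1 < ‖mlt n K c z‖ →
  (∀ θ ∈ Θ, 0 ≤ θ ∧ θ < 1 ∧ Fx n K θ ∧ Tendsto (fun t : ℝ => ry E θ t) (𝓝[>] 0) (𝓝 z)) →
  (Θ.card : ℝ) * Real.log ‖mlt n K c z‖ ≤ 2 * K * Real.log n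

/-- **PLY** (short/medium). uses: PL0_stmt, RAY_stmt, BGL_stmt. The Pommerenke–Levin–Yoccoz inequality.
Proof. For `θ ∈ Θ` choose `m θ > 0` with `Fx n (m θ) θ` (`IsRay`); `P = ∏ m θ`, `K = k P`. `Fx n K θ`:
`n^(m θ) - 1 ∣ n^K - 1` (`sub_one_dvd`/geometric sum). `f^K z = z`, `mlt n K c z = (mlt n k c z)^P`
(chain rule at a fixed point of `f^k`; `Function.iterate_mul`, `deriv_iterate`-type induction, cf.
`HasDerivAt.iterate`). RAY: the rays are `ry E θ`. PL0: `card · P log ‖ρ‖ ≤ 2 k P log n`. -/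
def PLY_stmt : Prop := ∀ (n k : ℕ) (c z : ℂ) (Θ : Finset ℝ), 2 ≤ n → c ∈ multibrot n → 0 < k →
  (fc n c)^[k] z = z → 1 < ‖mlt n k c z‖ → (∀ θ ∈ Θ, 0 ≤ θ ∧ θ < 1 ∧ Lands n c θ z) →
  (Θ.card : ℝ) * Real.log ‖mlt n k c z‖ ≤ 2 * k * Real.log n

/-! ## Part 4: the parameter plane -/

/-- **FIN** (short). uses: PLY_stmt, `V3W.FW_stmt`. The final theorem.
Proof. FW with `r = ε`: `δ`. `K = 2 log n/log (1+δ)`. If `dist (c, H_n) ≥ ε` then `ball c ε` is disjoint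
from `hyperbolic n`, `‖ρ‖ ≥ 1 + δ`, and PLY gives `card · log (1+δ) ≤ 2 k log n`. (`hyperbolic n` is not
empty: `0` is in it.) Closure: `infDist c (hyperbolic n) = 0`. -/
def FIN_stmt : Prop := ∀ n : ℕ, 2 ≤ n →
  (∀ ε > (0 : ℝ), ∃ K : ℝ, ∀ c ∈ multibrot n, ∀ (k : ℕ) (z : ℂ) (Θ : Finset ℝ), 0 < k →
    Function.minimalPeriod (fc n c) z = k → (∀ θ ∈ Θ, 0 ≤ θ ∧ θ < 1 ∧ Lands n c θ z) →
    K * k < (Θ.card : ℝ) → infDist c (hyperbolic n) < ε) ∧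
  ∀ c ∈ multibrot n, (∀ K : ℝ, ∃ (k : ℕ) (z : ℂ) (Θ : Finset ℝ), 0 < k ∧
    Function.minimalPeriod (fc n c) z = k ∧ (∀ θ ∈ Θ, 0 ≤ θ ∧ θ < 1 ∧ Lands n c θ z) ∧
    K * k < (Θ.card : ℝ)) → c ∈ closure (hyperbolic n)

end PLY
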